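import Pool.Agent.H44.SO.Basic

/-!
# Several orbits of vertices: composition with copies of local maps
-/

set_option autoImplicit false
set_option linter.unusedVariables false

namespace Pool.Agent.H77.SO.CMP

open Pool.Agent.H44.SO Pool.Agent.H57.SO Pool.Agent.H68.BP Pool.Agent.H58.SF
open Pool.Agent.H53.GC Pool.Agent.H53.NR Function
open Pool.Agent.H57.EQ (Cx Tour)
open Pool.Agent.H44.EQ (PolMap TInv BinPol ZA JSet sel kap)

theorem pf_CMP : T_CMP := by
  intro σ V S X _ P 𝔸 M c hs h hh n q γ z hγ hz hfr hsep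
  obtain ⟨δ, hCx, hδ⟩ := hh.can.comb (Fin n × Fin n) (fun i p => z p i)
  have hδ' : ∀ p p', c (δ p) (δ p') = h (z p) (z p') := hδ
  have hb : ∀ (s : S) (a b : Fin n), vt P c (q a) = s → vt P c (q b) = s →
      FBl P c s (z (a, b)) := by
    intro s a b ha hb
    have h1 : ∀ l, c (z (a, b) l) (z (a, b) l) = Sum.inl s := by
      intro l
      rw [hz l (a, b) (a, b)]
      rw [← Col.vt_iff hs.col, (hγ l).typ a b (ha.trans hb.symm), ha]
    refine ⟨h1, fun l l' hne => ?_⟩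
    rw [hfr (a, b) l l' hne, vt_of (h1 l), vt_of (h1 l')]
  refine ⟨δ, ⟨?_, ?_, ?_⟩, ?_⟩
  · intro l a b ha hb'
    refine hCx l (fun k => (a k, b k)) fun i => ?_
    exact hs.tyi l (fun k => γ i (a k, b k)) _ ((hγ i).pol l a b ha hb') fun j k => hz i _ _
  · intro a b hab
    apply vt_of
    rw [hδ']
    exact hh.idem _ _ (hb _ a b rfl hab.symm)
  · intro a b a' b' h1 h2 h3 h4 h5 h6
    refine hh.ncol (vt P c (q a)) (z (a, b)) (z (a', b')) (hb _ a b rfl h1) (hb _ a' b' h2 h3)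
      (hsep (vt P c (q a)) (a, b) (a', b') ⟨rfl, h1⟩ ⟨h2, h3⟩ h4 h5) (vt P c (δ (a', b'))) ?_
    rw [← hδ', h6]
    exact Col.vt hs.col _
  · intro p p'
    rw [← hs.col.eq_iff, hδ']

end Pool.Agent.H77.SO.CMP
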