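import Pool.Agent.H44.SO.Basic
import Pool.Agent.H44.EQD.CONN

/-!
# Several orbits of vertices: blocks which consist of copies of two functions
-/

set_option autoImplicit false
set_option linter.unusedVariables false

namespace Pool.Agent.H77.SO.CONN

open Pool.Agent.H44.SO Pool.Agent.H57.SO Pool.Agent.H68.BP Pool.Agent.H58.SF
open Pool.Agent.H53.GC Pool.Agent.H53.NR Function
open Pool.Agent.H57.EQ (Cx Tour)
open Pool.Agent.H44.EQ (PolMap TInv BinPol ZA JSet sel kap)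
open Pool.Agent.H44.EQD.CONN (con_sel con_nm con_kap_pos con_kap_neg con_lev con_nm_eq)
open Classical

theorem pf_CON (hS : T_SYN) : T_CON := by
  intro σ V S X _ P 𝔸 M c hs Q _ γ₀ γ₁ e L s₀ s₁ he hL
  obtain ⟨nm, hnm⟩ : ∃ nm, nm = con_nm γ₀ γ₁ e L s₀ s₁ := ⟨_, rfl⟩
  have hfin : Finite (Set.range nm) := Set.finite_range nm
  have hrk : Injective (fun a : Set.range nm => toLex (a.1.2.1, a.1.2.2)) := by
    rintro ⟨_, ⟨l, p⟩, rfl⟩ ⟨_, ⟨l', p'⟩, rfl⟩ h
    simp only [EmbeddingLike.apply_eq_iff_eq, Prod.mk.injEq] at h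
    apply Subtype.ext
    rw [hnm] at h ⊢
    refine Prod.ext ?_ (Prod.ext h.1 h.2)
    exact propext (con_lev he hL h.1).1
  obtain ⟨f, hf, hft, hfc⟩ := hS σ V S X P 𝔸 M c hs (Set.range nm) (ℕ ×ₗ V)
    (fun a => toLex (a.1.2.1, a.1.2.2)) (fun a => a.1.2.2)
    (fun a b => a.1.1 = b.1.1 ∧ (a.1.2.1 = b.1.2.1 ∨ (a.1.2.1 = 0 ∨ a.1.2.1 = 7) ∨
      (b.1.2.1 = 0 ∨ b.1.2.1 = 7))) hrk (by
      rintro x y ⟨h1, h2⟩
      refine ⟨h1.symm, ?_⟩
      rcases h2 with h2 | h2 | h2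
      · exact Or.inl h2.symm
      · exact Or.inr (Or.inr h2)
      · exact Or.inr (Or.inl h2))
  have hinj : ∀ a b, f a = f b ↔ a = b := by
    intro a b
    refine ⟨fun h => hrk ?_, fun h => by rw [h]⟩
    rcases lt_trichotomy (toLex (a.1.2.1, a.1.2.2)) (toLex (b.1.2.1, b.1.2.2)) with h1 | h1 | h1
    · exact absurd h ((hf a b).2 h1).ne
    · exact h1
    · exact absurd h ((hf b a).2 h1).ne'
  obtain ⟨z, hz⟩ : ∃ z : Q → Fin 6 → V, z = fun p l => f ⟨nm (l, p), _, rfl⟩ := ⟨_, rfl⟩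
  have h3 : ∀ p p' l l', z p l = z p' l' ↔ ((l ∈ L ↔ l' ∈ L) ∧
      sel L γ₀ γ₁ l p = sel L γ₀ γ₁ l' p' ∧ (l = l' ∨ sel L γ₀ γ₁ l p ∈ sel L s₀ s₁ l)) := by
    intro p p' l l'
    rw [hz]
    simp only
    rw [hinj, Subtype.ext_iff, hnm]
    exact con_nm_eq he hL
  have hty : ∀ p l, c (z p l) (z p l) = c (sel L γ₀ γ₁ l p) (sel L γ₀ γ₁ l p) := by
    intro p l
    rw [hz]
    simp only
    rw [hft, hnm]
    rfl
  have hvt : ∀ p l, vt P c (z p l) = vt P c (sel L γ₀ γ₁ l p) := by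
    intro p l
    unfold vt
    rw [hty]
  have hB : ∀ p l l', z p l ≠ z p l' →
      c (z p l) (z p l') = Sum.inr (P.fr (vt P c (z p l)) (vt P c (z p l'))) := by
    intro p l l' hne
    rw [hvt, hvt]
    have hne' : (⟨nm (l, p), _, rfl⟩ : Set.range nm) ≠ ⟨nm (l', p), _, rfl⟩ := by
      intro h
      apply hne
      rw [hz]
      simp only
      rw [h]
    have h4 := (hfc ⟨nm (l, p), _, rfl⟩ ⟨nm (l', p), _, rfl⟩ hne').2 (by
      rintro ⟨⟨h5, -⟩, h6⟩
      apply h6
      simp only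
      rw [hnm] at h5 ⊢
      have h7 : l ∈ L ↔ l' ∈ L := iff_of_eq h5
      show sel L γ₀ γ₁ l p = sel L γ₀ γ₁ l' p
      rw [con_sel h7])
    rw [hz]
    simp only
    rw [h4, hnm]
    rfl
  refine ⟨z, ?_, hB, ?_, h3⟩
  · intro l p p'
    by_cases h : sel L γ₀ γ₁ l p = sel L γ₀ γ₁ l p'
    · rw [← (h3 p p' l l).2 ⟨Iff.rfl, h, Or.inl rfl⟩, hty, ← h]
    · have hne' : (⟨nm (l, p), _, rfl⟩ : Set.range nm) ≠ ⟨nm (l, p'), _, rfl⟩ := by
        intro h'
        apply h
        rw [Subtype.ext_iff, hnm] at h'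
        exact ((con_nm_eq he hL).1 h').2.1
      have h4 := (hfc ⟨nm (l, p), _, rfl⟩ ⟨nm (l, p'), _, rfl⟩ hne').1 (by
        rw [hnm]
        refine ⟨rfl, ?_⟩
        unfold con_nm
        simp only
        by_cases h1 : l ∈ {l | sel L γ₀ γ₁ l p ∈ sel L s₀ s₁ l}
        · right
          left
          rw [con_kap_pos h1]
          exact he l
        · by_cases h2 : l ∈ {l | sel L γ₀ γ₁ l p' ∈ sel L s₀ s₁ l}
          · right
            right
            rw [con_kap_pos h2]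
            exact he l
          · left
            rw [con_kap_neg h1, con_kap_neg h2]) (by
        rw [hnm]
        exact h)
      rw [hz]
      simp only
      rw [h4, hnm]
      rfl
  · intro p s hty'
    obtain ⟨T, hT⟩ : ∃ T, T = {l | sel L γ₀ γ₁ l p ∈ sel L s₀ s₁ l} := ⟨_, rfl⟩
    rw [← hT]
    have hts : ∀ l, c (z p l) (z p l) = Sum.inl s := fun l => (hty p l).trans (hty' l)
    have hlt : ∀ l l', kap e T l < kap e T l' → z p l < z p l' := by
      intro l l' h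
      rw [hz]
      simp only
      rw [hf, Prod.Lex.toLex_lt_toLex]
      left
      rw [hnm]
      unfold con_nm
      simp only
      rw [← hT]
      exact h
    have hfree : ∀ l l', kap e T l < kap e T l' → c (z p l) (z p l') = Sum.inr (P.fr s s) := by
      intro l l' h
      rw [hB p l l' (hlt l l' h).ne, vt_of (hts l), vt_of (hts l')]
    refine ⟨fun l => ⟨hts l, hts l⟩, ?_, ?_, ?_⟩
    · intro l l' h
      obtain ⟨h1, h2⟩ := con_lev he hL h
      have h4 : z p l = z p l' := by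
        rw [h3]
        refine ⟨h1, by rw [con_sel h1], ?_⟩
        rcases h2 with h2 | h2
        · exact Or.inl h2
        · right
          have h5 := h2.1
          rw [hT] at h5
          exact h5
      exact ⟨h4, h4⟩
    · intro l l' h
      exact ⟨hlt l l' h, hlt l l' h, hlt l l' h, hlt l l' h⟩
    · intro l l' h
      exact ⟨hfree l l' h, hfree l l' h, hfree l l' h, hfree l l' h⟩

end Pool.Agent.H77.SO.CONN
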